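import Pool.Agent.U610.PC.Stm

/-!
# Project PC, package RES (helper312 for helper610)
-/

set_option autoImplicit false

namespace Pool.Agent.U312.PC

open Polynomial Pool.Agent.U610.PC

theorem clear (u : ℚ[X]) : ∃ (b : ℤ) (U : ℤ[X]), b ≠ 0 ∧ q U = C (b : ℚ) * u := by
  obtain ⟨b, hb⟩ := IsLocalization.integerNormalization_map_to_map (nonZeroDivisors ℤ) u
  refine ⟨(b : ℤ), IsLocalization.integerNormalization (nonZeroDivisors ℤ) u,
    nonZeroDivisors.coe_ne_zero b, ?_⟩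
  have h1 : q (IsLocalization.integerNormalization (nonZeroDivisors ℤ) u) = ((b : ℤ) : ℤ) • u := by
    rw [← hb]
    rfl
  rw [h1, zsmul_eq_mul]
  congr 1

theorem t_RES : S_RES := by
  intro P R ⟨u, v, huv⟩
  obtain ⟨b, U, hb, hU⟩ := clear u
  obtain ⟨c, V, hc, hV⟩ := clear v
  have h1 : C c * U * P + C b * V * R = C (b * c) := by
    have hinj : Function.Injective (Polynomial.map (Int.castRingHom ℚ)) :=
      Polynomial.map_injective _ (RingHom.injective_int _)
    apply hinj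
    simp only [Polynomial.map_add, Polynomial.map_mul, Polynomial.map_C]
    have hU' : U.map (Int.castRingHom ℚ) = C (b : ℚ) * u := hU
    have hV' : V.map (Int.castRingHom ℚ) = C (c : ℚ) * v := hV
    have huv' : u * P.map (Int.castRingHom ℚ) + v * R.map (Int.castRingHom ℚ) = 1 := huv
    rw [hU', hV']
    have e1 : C ((Int.castRingHom ℚ) c) * (C (b : ℚ) * u) * P.map (Int.castRingHom ℚ) +
        C ((Int.castRingHom ℚ) b) * (C (c : ℚ) * v) * R.map (Int.castRingHom ℚ) =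
        C (b : ℚ) * C (c : ℚ) * (u * P.map (Int.castRingHom ℚ) +
          v * R.map (Int.castRingHom ℚ)) := by
      rw [eq_intCast (Int.castRingHom ℚ) c, eq_intCast (Int.castRingHom ℚ) b]
      ring
    rw [e1, huv', mul_one, ← C_mul, eq_intCast]
    push_cast
    rfl
  refine ⟨(b * c).natAbs, ?_⟩
  intro p _ hp x hx
  by_contra hcon
  have h2 : ‖(aeval x R : ℤ_[p])‖ < 1 := lt_of_le_of_ne (PadicInt.norm_le_one _) hcon
  have h3 : (aeval x (C c * U) : ℤ_[p]) * aeval x P + aeval x (C b * V) * aeval x R =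
      ((b * c : ℤ) : ℤ_[p]) := by
    rw [← map_mul, ← map_mul, ← map_add, h1, aeval_C]
    rfl
  have h4 : ∀ y z : ℤ_[p], ‖z‖ < 1 → ‖y * z‖ < 1 := by
    intro y z hz
    rw [norm_mul]
    calc ‖y‖ * ‖z‖ ≤ 1 * ‖z‖ := mul_le_mul_of_nonneg_right (PadicInt.norm_le_one _) (norm_nonneg _)
      _ < 1 := by rwa [one_mul]
  have h5 : ‖((b * c : ℤ) : ℤ_[p])‖ < 1 := by
    rw [← h3]
    exact lt_of_le_of_lt (PadicInt.nonarchimedean _ _) (max_lt (h4 _ _ hx) (h4 _ _ h2))
  rw [PadicInt.norm_int_lt_one_iff_dvd] at h5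
  have h6 := Int.le_of_dvd (Int.natAbs_pos.2 (mul_ne_zero hb hc) |> fun h => by
    exact_mod_cast h : (0 : ℤ) < ((b * c).natAbs : ℤ)) (Int.dvd_natAbs.2 h5)
  omega

end Pool.Agent.U312.PC
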